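import Pool.Agent.helper68.DL.L2

set_option autoImplicit false

/-! # MP_6163c8_ag, module L (first part): duality for integer lattices -/

namespace Pool.Agent.helper68.DL

open Finset Pool.Agent.helper61.DL

lemma mem_closure_iff_span {M : ℕ} {S : Set (Fin M → ℤ)} {x : Fin M → ℤ} :
    x ∈ AddSubgroup.closure S ↔ x ∈ Submodule.span ℤ S := by
  rw [← Submodule.mem_toAddSubgroup, Submodule.span_int_eq_addSubgroupClosure]

/-- The index of the lattice spanned by `a = C g` when `g` spans a saturated lattice. -/
lemma mult_of_basis {κ : Type} [Fintype κ] [DecidableEq κ] {M : ℕ} (g : κ → Fin M → ℤ)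
    (hg : LinearIndependent ℤ g)
    (hsat : ∀ (k : ℤ) (x : Fin M → ℤ), k ≠ 0 → k • x ∈ Submodule.span ℤ (Set.range g) →
      x ∈ Submodule.span ℤ (Set.range g))
    (C : Matrix κ κ ℤ) (hC : C.det ≠ 0) (a : κ → Fin M → ℤ)
    (hali : LinearIndependent ℤ a)
    (ha : ∀ j, a j = ∑ i, C j i • g i) :
    mult (Set.range a) = C.det.natAbs := by
  classical
  -- closure `a ≤ span g`
  have hle : ∀ x ∈ Submodule.span ℤ (Set.range a), x ∈ Submodule.span ℤ (Set.range g) := by
    intro x hx
    have : Submodule.span ℤ (Set.range a) ≤ Submodule.span ℤ (Set.range g) := by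
      rw [Submodule.span_le]
      rintro _ ⟨j, rfl⟩
      rw [SetLike.mem_coe, ha]
      exact Submodule.sum_mem _ fun i _ => Submodule.smul_mem _ _ (Submodule.subset_span ⟨i, rfl⟩)
    exact this hx
  -- `det C • g i ∈ span a`
  have hadj : ∀ i, C.det • g i ∈ Submodule.span ℤ (Set.range a) := by
    intro i
    have h1 : C.adjugate * C = C.det • (1 : Matrix κ κ ℤ) := Matrix.adjugate_mul C
    have h2 : C.det • g i = ∑ j, C.adjugate i j • a j := by
      have h3 : ∀ l, ∑ j, C.adjugate i j * C j l = if i = l then C.det else 0 := by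
        intro l
        have := congrFun (congrFun h1 i) l
        rw [Matrix.mul_apply] at this
        rw [this, Matrix.smul_apply, Matrix.one_apply]
        split_ifs <;> simp
      calc C.det • g i = ∑ l, (if i = l then C.det else 0) • g l := by
            rw [Finset.sum_eq_single i]
            · simp
            · intro l _ hl
              rw [if_neg (Ne.symm hl), zero_smul]
            · simp
        _ = ∑ l, (∑ j, C.adjugate i j * C j l) • g l := by
            apply Finset.sum_congr rfl
            intro l _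
            rw [h3 l]
        _ = ∑ l, ∑ j, (C.adjugate i j * C j l) • g l := by
            apply Finset.sum_congr rfl
            intro l _
            rw [Finset.sum_smul]
        _ = ∑ j, ∑ l, (C.adjugate i j * C j l) • g l := Finset.sum_comm
        _ = ∑ j, C.adjugate i j • a j := by
            apply Finset.sum_congr rfl
            intro j _
            rw [ha j, Finset.smul_sum]
            apply Finset.sum_congr rfl
            intro l _
            rw [mul_smul]
    rw [h2]
    exact Submodule.sum_mem _ fun j _ => Submodule.smul_mem _ _ (Submodule.subset_span ⟨j, rfl⟩)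
  have hsatg : ∀ x, x ∈ sat (Set.range a) ↔ x ∈ Submodule.span ℤ (Set.range g) := by
    intro x
    rw [mem_sat]
    constructor
    · rintro ⟨k, hk, hx⟩
      exact hsat k x hk (hle _ (mem_closure_iff_span.1 hx))
    · intro hx
      refine ⟨C.det, hC, ?_⟩
      rw [mem_closure_iff_span]
      induction hx using Submodule.span_induction with
      | mem y hy =>
        obtain ⟨i, rfl⟩ := hy
        exact hadj i
      | zero => rw [smul_zero]; exact Submodule.zero_mem _
      | add y z _ _ hy hz => rw [smul_add]; exact Submodule.add_mem _ hy hz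
      | smul c y _ hy => rw [smul_comm]; exact Submodule.smul_mem _ _ hy
  set L₁ := AddSubgroup.closure (Set.range a) with hL₁
  set L₂ := sat (Set.range a) with hL₂
  have hL : L₁ ≤ L₂ := closure_le_sat _
  have e1 : Submodule.span ℤ (Set.range a) = AddSubgroup.toIntSubmodule L₁ := by
    ext x
    rw [← mem_closure_iff_span]
    rfl
  have e2 : Submodule.span ℤ (Set.range g) = AddSubgroup.toIntSubmodule L₂ := by
    ext x
    rw [← hsatg]
    rfl
  let b₁ : Module.Basis κ ℤ (AddSubgroup.toIntSubmodule L₁) :=
    (Module.Basis.span hali).map (LinearEquiv.ofEq _ _ e1)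
  let b₂ : Module.Basis κ ℤ (AddSubgroup.toIntSubmodule L₂) :=
    (Module.Basis.span hg).map (LinearEquiv.ofEq _ _ e2)
  have hb₁ : ∀ j, ((b₁ j : AddSubgroup.toIntSubmodule L₁) : Fin M → ℤ) = a j := by
    intro j
    simp only [b₁, Module.Basis.map_apply, LinearEquiv.coe_ofEq_apply]
    exact congrArg Subtype.val (Module.Basis.span_apply hali j)
  have hb₂ : ∀ j, ((b₂ j : AddSubgroup.toIntSubmodule L₂) : Fin M → ℤ) = g j := by
    intro j
    simp only [b₂, Module.Basis.map_apply, LinearEquiv.coe_ofEq_apply]
    exact congrArg Subtype.val (Module.Basis.span_apply hg j)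
  unfold mult
  rw [← hL₁, ← hL₂, AddSubgroup.relIndex_eq_natAbs_det L₁ L₂ hL b₁ b₂, Module.Basis.det_apply]
  have hmat : b₂.toMatrix (fun i => (⟨b₁ i, hL (SetLike.coe_mem _)⟩ :
      AddSubgroup.toIntSubmodule L₂)) = C.transpose := by
    ext i j
    rw [Module.Basis.toMatrix_apply, Matrix.transpose_apply]
    have hsum : (⟨b₁ j, hL (SetLike.coe_mem _)⟩ : AddSubgroup.toIntSubmodule L₂) =
        ∑ l, C j l • b₂ l := by
      apply Subtype.ext
      rw [Submodule.coe_sum]
      show ((b₁ j : AddSubgroup.toIntSubmodule L₁) : Fin M → ℤ) = _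
      rw [hb₁, ha]
      apply Finset.sum_congr rfl
      intro l _
      rw [Submodule.coe_smul, hb₂]
    rw [hsum, map_sum, Finsupp.finsetSum_apply, Finset.sum_eq_single i]
    · simp
    · intro l _ hl
      simp [hl]
    · simp
  rw [hmat, Matrix.det_transpose]

/-- a basis of `ℤ ^ M` adapted to a saturated sublattice -/
lemma exists_adapted {ℓ m M : ℕ} (hM : ℓ + m = M) (a : Fin ℓ → Fin M → ℤ)
    (ha : LinearIndependent ℤ a) :
    ∃ (E Q : Matrix (Fin M) (Fin M) ℤ) (σ : Fin ℓ ⊕ Fin m ≃ Fin M), Q * E = 1 ∧
      (∀ i, E (σ (Sum.inl i)) ∈ sat (Set.range a)) ∧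
      (∀ x ∈ sat (Set.range a), x ∈ Submodule.span ℤ (Set.range fun i => E (σ (Sum.inl i)))) := by
  classical
  set N : Submodule ℤ (Fin M → ℤ) := AddSubgroup.toIntSubmodule (sat (Set.range a)) with hN
  have hmemN : ∀ x, x ∈ N ↔ x ∈ sat (Set.range a) := fun x => Iff.rfl
  obtain ⟨n, ⟨bM, bN, f, s, snf⟩⟩ := Submodule.smithNormalForm (Pi.basisFun ℤ (Fin M)) N
  have hs : ∀ i, s i ≠ 0 := by
    intro i h0
    have h1 := snf i
    rw [h0, zero_smul] at h1
    exact bN.ne_zero i (Subtype.ext h1)
  have hsatN : ∀ (k : ℤ) (x : Fin M → ℤ), k ≠ 0 → k • x ∈ N → x ∈ N := by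
    intro k x hk hx
    rw [hmemN, mem_sat] at hx ⊢
    obtain ⟨l, hl, hlx⟩ := hx
    exact ⟨l * k, mul_ne_zero hl hk, by rw [mul_smul]; exact hlx⟩
  have hf : ∀ i, bM (f i) ∈ N := by
    intro i
    apply hsatN (s i) _ (hs i)
    rw [← snf i]
    exact (bN i).2
  -- `N` is spanned by the `bM (f i)`
  have hspan : ∀ x ∈ N, x ∈ Submodule.span ℤ (Set.range fun i => bM (f i)) := by
    intro x hx
    have h1 := bN.sum_repr ⟨x, hx⟩
    have h2 : x = ∑ i, (bN.repr ⟨x, hx⟩ i) • (s i • bM (f i)) := by
      refine (congrArg Subtype.val h1).symm.trans ?_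
      rw [Submodule.coe_sum]
      apply Finset.sum_congr rfl
      intro i _
      rw [Submodule.coe_smul, snf i]
    rw [h2]
    exact Submodule.sum_mem _ fun i _ => Submodule.smul_mem _ _
      (Submodule.smul_mem _ _ (Submodule.subset_span ⟨i, rfl⟩))
  -- `n = ℓ`
  have hn : n = ℓ := by
    apply le_antisymm
    · -- multiples of `bM (f i)` in the span of `a`
      have hk : ∀ i, ∃ k : ℤ, k ≠ 0 ∧ k • bM (f i) ∈ Submodule.span ℤ (Set.range a) := by
        intro i
        obtain ⟨k, hk, hx⟩ := mem_sat.1 ((hmemN _).1 (hf i))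
        exact ⟨k, hk, mem_closure_iff_span.1 hx⟩
      choose k hk0 hk using hk
      have hli : LinearIndependent ℤ (fun i => k i • bM (f i)) := by
        have h0 : LinearIndependent ℤ (fun i => bM (f i)) :=
          bM.linearIndependent.comp f f.injective
        rw [Fintype.linearIndependent_iff] at h0 ⊢
        intro c hc i
        have := h0 (fun i => c i * k i) (by rw [← hc]; simp [mul_smul]) i
        exact (mul_eq_zero.1 this).resolve_right (hk0 i)
      have hle := linearIndependent_le_span' _ hli (Set.range a) (by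
        rintro _ ⟨i, rfl⟩
        exact hk i)
      rw [Cardinal.mk_fin] at hle
      have h2 : Fintype.card (Set.range a) ≤ ℓ := by
        have := Fintype.card_range_le a
        simpa using this
      have h3 : (n : Cardinal) ≤ (ℓ : Cardinal) := hle.trans (Nat.cast_le.2 h2)
      exact Nat.cast_le.1 h3
    · have hli : LinearIndependent ℤ (fun j => (⟨a j, (hmemN _).2 (closure_le_sat _
          (AddSubgroup.subset_closure ⟨j, rfl⟩))⟩ : N)) := by
        apply LinearIndependent.of_comp N.subtype
        exact ha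
      have := hli.fintype_card_le_finrank
      rw [Module.finrank_eq_card_basis bN] at this
      simpa using this
  subst hn
  -- the equivalence
  have hcard : Fintype.card {x : Fin M // x ∉ Set.range f} = m := by
    have h1 := Fintype.card_subtype_compl (fun x : Fin M => x ∈ Set.range f)
    have h2 : Fintype.card {x : Fin M // x ∈ Set.range f} = n := by
      have := Fintype.card_congr (Equiv.ofInjective f f.injective)
      rw [Fintype.card_fin] at this
      exact this.symm
    rw [h2, Fintype.card_fin] at h1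
    have h3 : Fintype.card {x : Fin M // x ∉ Set.range f} = M - n := h1
    omega
  set σ : Fin n ⊕ Fin m ≃ Fin M :=
    (Equiv.sumCongr (Equiv.ofInjective f f.injective) (Fintype.equivFinOfCardEq hcard).symm).trans
      (Equiv.sumCompl (fun x : Fin M => x ∈ Set.range f)) with hσ
  have hσl : ∀ i, σ (Sum.inl i) = f i := by
    intro i
    simp [hσ]
  refine ⟨Matrix.of fun i j => bM i j, Matrix.of fun j i => bM.repr (Pi.single j 1) i, σ, ?_, ?_, ?_⟩
  · ext j k
    rw [Matrix.mul_apply]
    simp only [Matrix.of_apply]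
    have := congrFun (bM.sum_repr (Pi.single j 1)) k
    rw [Finset.sum_apply] at this
    simp only [Pi.smul_apply, smul_eq_mul] at this
    rw [this, Matrix.one_apply, Pi.single_apply]
    simp [eq_comm]
  · intro i
    rw [hσl]
    exact (hmemN _).1 (hf i)
  · intro x hx
    have := hspan x ((hmemN _).2 hx)
    have e : (fun i => (Matrix.of fun i j => bM i j) (σ (Sum.inl i))) = fun i => bM (f i) := by
      ext i j
      rw [hσl]
      rfl
    rw [e]
    exact this

lemma det_ne_zero_of {κ : Type} [Fintype κ] [DecidableEq κ] {M : ℕ} (g : κ → Fin M → ℤ)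
    (C : Matrix κ κ ℤ) (a : κ → Fin M → ℤ) (hali : LinearIndependent ℤ a)
    (ha : ∀ j, a j = ∑ i, C j i • g i) : C.det ≠ 0 := by
  intro h0
  obtain ⟨c, hc, hc0⟩ := Matrix.exists_vecMul_eq_zero_iff.2 h0
  apply hc
  have hsum : ∑ j, c j • a j = 0 := by
    calc ∑ j, c j • a j = ∑ j, ∑ i, (c j * C j i) • g i := by
          apply Finset.sum_congr rfl
          intro j _
          rw [ha j, Finset.smul_sum]
          apply Finset.sum_congr rfl
          intro i _
          rw [mul_smul]
      _ = ∑ i, ∑ j, (c j * C j i) • g i := Finset.sum_comm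
      _ = ∑ i, (∑ j, c j * C j i) • g i := by
          apply Finset.sum_congr rfl
          intro i _
          rw [Finset.sum_smul]
      _ = 0 := by
          apply Finset.sum_eq_zero
          intro i _
          have : (∑ j, c j * C j i) = 0 := congrFun hc0 i
          rw [this, zero_smul]
  ext j
  exact Fintype.linearIndependent_iff.1 hali c hsum j

theorem lattice_duality {ℓ m M : ℕ} (hM : ℓ + m = M) (a : Fin ℓ → Fin M → ℤ)
    (v : Fin m → Fin M → ℤ) (orth : ∀ j k, ∑ i, a j i * v k i = 0)
    (ha : LinearIndependent ℤ a) (hv : LinearIndependent ℤ v) (b : Fin m → Fin M → ℝ)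
    (hb : ∀ k k', ∑ i, b k i * (v k' i : ℝ) = if k = k' then 1 else 0) :
    (mult (Set.range a) : ℝ) = mult (Set.range v) *
      adet (Sum.elim (fun (j : Fin ℓ) (i : Fin M) => (a j i : ℝ)) b) := by
  classical
  obtain ⟨E, Q, σ, hQE, hE, hspan⟩ := exists_adapted hM a ha
  have hEQ : E * Q = 1 := mul_eq_one_comm.1 hQE
  have hdot : ∀ i i', ∑ j, E i j * Q j i' = if i = i' then 1 else 0 := by
    intro i i'
    have := congrFun (congrFun hEQ i) i'
    rw [Matrix.mul_apply, Matrix.one_apply] at this
    exact this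
  have hdot' : ∀ j k, ∑ i, Q j i * E i k = if j = k then 1 else 0 := by
    intro j k
    have := congrFun (congrFun hQE j) k
    rw [Matrix.mul_apply, Matrix.one_apply] at this
    exact this
  -- coordinates
  have hco : ∀ (x : Fin M → ℤ) k, x k = ∑ i, (∑ j, x j * Q j i) * E i k := by
    intro x k
    calc x k = ∑ j, x j * (if j = k then 1 else 0) := by simp
      _ = ∑ j, x j * ∑ i, Q j i * E i k := by
          apply Finset.sum_congr rfl; intro j _; rw [hdot' j k]
      _ = ∑ j, ∑ i, x j * Q j i * E i k := by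
          apply Finset.sum_congr rfl; intro j _; rw [Finset.mul_sum]
          apply Finset.sum_congr rfl; intro i _; ring
      _ = ∑ i, ∑ j, x j * Q j i * E i k := Finset.sum_comm
      _ = _ := by
          apply Finset.sum_congr rfl; intro i _; rw [Finset.sum_mul]
  have hco' : ∀ (x : Fin M → ℤ) k, x k = ∑ i, (∑ j, x j * E i j) * Q k i := by
    intro x k
    calc x k = ∑ j, x j * (if k = j then 1 else 0) := by simp
      _ = ∑ j, x j * ∑ i, Q k i * E i j := by
          apply Finset.sum_congr rfl; intro j _; rw [hdot' k j]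
      _ = ∑ j, ∑ i, x j * E i j * Q k i := by
          apply Finset.sum_congr rfl; intro j _; rw [Finset.mul_sum]
          apply Finset.sum_congr rfl; intro i _; ring
      _ = ∑ i, ∑ j, x j * E i j * Q k i := Finset.sum_comm
      _ = _ := by
          apply Finset.sum_congr rfl; intro i _; rw [Finset.sum_mul]
  have hlr : ∀ i k, σ (Sum.inl i) ≠ σ (Sum.inr k) := by
    intro i k h
    exact absurd (σ.injective h) (by simp)
  -- orthogonality
  have horth : ∀ x ∈ sat (Set.range a), ∀ k, ∑ j, x j * v k j = 0 := by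
    intro x hx k
    obtain ⟨c, hc, hcx⟩ := mem_sat.1 hx
    have h1 : ∀ y ∈ AddSubgroup.closure (Set.range a), ∑ j, y j * v k j = 0 := by
      intro y hy
      induction hy using AddSubgroup.closure_induction with
      | mem y hy =>
        obtain ⟨j, rfl⟩ := hy
        exact orth j k
      | zero => simp
      | add x y _ _ hx hy => simp only [Pi.add_apply, add_mul, Finset.sum_add_distrib, hx, hy]; simp
      | neg x _ hx => simp only [Pi.neg_apply, neg_mul, Finset.sum_neg_distrib, hx]; simp
    have h2 := h1 _ hcx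
    have h3 : c * ∑ j, x j * v k j = 0 := by
      rw [Finset.mul_sum, ← h2]
      apply Finset.sum_congr rfl
      intro j _
      simp [mul_assoc]
    exact (mul_eq_zero.1 h3).resolve_left hc
  have hvE : ∀ k i, ∑ j, v k j * E (σ (Sum.inl i)) j = 0 := by
    intro k i
    have := horth _ (hE i) k
    rw [← this]
    apply Finset.sum_congr rfl
    intro j _
    ring
  -- the part of `a`
  set g : Fin ℓ → Fin M → ℤ := fun i => E (σ (Sum.inl i)) with hgdef
  set C : Matrix (Fin ℓ) (Fin ℓ) ℤ := Matrix.of fun j i => ∑ l, a j l * Q l (σ (Sum.inl i)) with hC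
  have hacoord : ∀ j k, ∑ l, a j l * Q l (σ (Sum.inr k)) = 0 := by
    intro j k
    have h1 : ∀ x ∈ Submodule.span ℤ (Set.range g), ∑ l, x l * Q l (σ (Sum.inr k)) = 0 := by
      intro x hx
      induction hx using Submodule.span_induction with
      | mem y hy =>
        obtain ⟨i, rfl⟩ := hy
        simp only [hgdef]
        rw [hdot, if_neg (hlr i k)]
      | zero => simp
      | add x y _ _ hx hy => simp only [Pi.add_apply, add_mul, Finset.sum_add_distrib, hx, hy]; simp
      | smul c x _ hx =>
        simp only [Pi.smul_apply, smul_eq_mul, mul_assoc, ← Finset.mul_sum, hx, mul_zero]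
    exact h1 _ (hspan _ (closure_le_sat _ (AddSubgroup.subset_closure ⟨j, rfl⟩)))
  have haC : ∀ j, a j = ∑ i, C j i • g i := by
    intro j
    ext k
    rw [hco (a j) k, ← Equiv.sum_comp σ, Fintype.sum_sum_type, Finset.sum_apply]
    have h0 : ∑ k', (∑ l, a j l * Q l (σ (Sum.inr k'))) * E (σ (Sum.inr k')) k = 0 := by
      apply Finset.sum_eq_zero
      intro k' _
      rw [hacoord j k', zero_mul]
    rw [h0, add_zero]
    apply Finset.sum_congr rfl
    intro i _
    simp [hC, hgdef]
  have hgli : LinearIndependent ℤ g := by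
    rw [Fintype.linearIndependent_iff]
    intro c hc i
    have h1 : ∑ l, (∑ i', c i' • g i') l * Q l (σ (Sum.inl i)) = 0 := by rw [hc]; simp
    have h2 : ∑ l, (∑ i', c i' • g i') l * Q l (σ (Sum.inl i)) =
        ∑ i', c i' * ∑ l, E (σ (Sum.inl i')) l * Q l (σ (Sum.inl i)) := by
      simp only [Finset.sum_apply, Pi.smul_apply, smul_eq_mul, Finset.sum_mul, Finset.mul_sum]
      rw [Finset.sum_comm]
      apply Finset.sum_congr rfl; intro i' _
      apply Finset.sum_congr rfl; intro l _
      simp only [hgdef]; ring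
    rw [h2, Finset.sum_eq_single i] at h1
    · rw [hdot, if_pos rfl, mul_one] at h1
      exact h1
    · intro i' _ hi'
      rw [hdot, if_neg, mul_zero]
      intro h
      exact hi' (Sum.inl_injective (σ.injective h))
    · simp
  have hgsat : ∀ (k : ℤ) (x : Fin M → ℤ), k ≠ 0 → k • x ∈ Submodule.span ℤ (Set.range g) →
      x ∈ Submodule.span ℤ (Set.range g) := by
    intro k x hk hx
    apply hspan
    have h1 : ∀ y ∈ Submodule.span ℤ (Set.range g), y ∈ sat (Set.range a) := by
      intro y hy
      induction hy using Submodule.span_induction with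
      | mem y hy =>
        obtain ⟨i, rfl⟩ := hy
        exact hE i
      | zero => exact AddSubgroup.zero_mem _
      | add x y _ _ hx hy => exact AddSubgroup.add_mem _ hx hy
      | smul c x _ hx => exact AddSubgroup.zsmul_mem _ hx c
    obtain ⟨l, hl, hlx⟩ := mem_sat.1 (h1 _ hx)
    exact mem_sat.2 ⟨l * k, mul_ne_zero hl hk, by rw [mul_smul]; exact hlx⟩
  have hdetC := det_ne_zero_of g C a ha haC
  have hmulta : mult (Set.range a) = C.det.natAbs := mult_of_basis g hgli hgsat C hdetC a ha haC
  -- the part of `v`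
  set hs : Fin m → Fin M → ℤ := fun k j => Q j (σ (Sum.inr k)) with hhs
  set D : Matrix (Fin m) (Fin m) ℤ := Matrix.of fun k' k => ∑ j, v k' j * E (σ (Sum.inr k)) j with hD
  have hvD : ∀ k', v k' = ∑ k, D k' k • hs k := by
    intro k'
    ext l
    rw [hco' (v k') l, ← Equiv.sum_comp σ, Fintype.sum_sum_type, Finset.sum_apply]
    have h0 : ∑ i, (∑ j, v k' j * E (σ (Sum.inl i)) j) * Q l (σ (Sum.inl i)) = 0 := by
      apply Finset.sum_eq_zero
      intro i _
      rw [hvE k' i, zero_mul]
    rw [h0, zero_add]
    apply Finset.sum_congr rfl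
    intro i _
    simp [hD, hhs]
  have hhsli : LinearIndependent ℤ hs := by
    rw [Fintype.linearIndependent_iff]
    intro c hc k
    have h1 : ∑ l, (∑ k', c k' • hs k') l * E (σ (Sum.inr k)) l = 0 := by rw [hc]; simp
    have h2 : ∑ l, (∑ k', c k' • hs k') l * E (σ (Sum.inr k)) l =
        ∑ k', c k' * ∑ l, E (σ (Sum.inr k)) l * Q l (σ (Sum.inr k')) := by
      simp only [Finset.sum_apply, Pi.smul_apply, smul_eq_mul, Finset.sum_mul, Finset.mul_sum]
      rw [Finset.sum_comm]
      apply Finset.sum_congr rfl; intro i' _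
      apply Finset.sum_congr rfl; intro l _
      simp only [hhs]; ring
    rw [h2, Finset.sum_eq_single k] at h1
    · rw [hdot, if_pos rfl, mul_one] at h1
      exact h1
    · intro k' _ hk'
      rw [hdot, if_neg, mul_zero]
      intro h
      exact hk' (Sum.inr_injective (σ.injective h)).symm
    · simp
  have hhsmem : ∀ x : Fin M → ℤ, x ∈ Submodule.span ℤ (Set.range hs) ↔
      ∀ i, ∑ j, x j * E (σ (Sum.inl i)) j = 0 := by
    intro x
    constructor
    · intro hx i
      induction hx using Submodule.span_induction with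
      | mem y hy =>
        obtain ⟨k, rfl⟩ := hy
        have := hdot (σ (Sum.inl i)) (σ (Sum.inr k))
        rw [if_neg (hlr i k)] at this
        rw [← this]
        apply Finset.sum_congr rfl; intro j _
        simp only [hhs]; ring
      | zero => simp
      | add x y _ _ hx hy => simp only [Pi.add_apply, add_mul, Finset.sum_add_distrib, hx, hy]; simp
      | smul c x _ hx =>
        simp only [Pi.smul_apply, smul_eq_mul, mul_assoc, ← Finset.mul_sum, hx, mul_zero]
    · intro hx
      have : x = ∑ k, (∑ j, x j * E (σ (Sum.inr k)) j) • hs k := by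
        ext l
        rw [hco' x l, ← Equiv.sum_comp σ, Fintype.sum_sum_type, Finset.sum_apply]
        have h0 : ∑ i, (∑ j, x j * E (σ (Sum.inl i)) j) * Q l (σ (Sum.inl i)) = 0 := by
          apply Finset.sum_eq_zero
          intro i _
          rw [hx i, zero_mul]
        rw [h0, zero_add]
        apply Finset.sum_congr rfl
        intro i _
        simp [hhs]
      rw [this]
      exact Submodule.sum_mem _ fun k _ => Submodule.smul_mem _ _ (Submodule.subset_span ⟨k, rfl⟩)
  have hhssat : ∀ (k : ℤ) (x : Fin M → ℤ), k ≠ 0 → k • x ∈ Submodule.span ℤ (Set.range hs) →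
      x ∈ Submodule.span ℤ (Set.range hs) := by
    intro k x hk hx
    rw [hhsmem] at hx ⊢
    intro i
    have := hx i
    simp only [Pi.smul_apply, smul_eq_mul, mul_assoc, ← Finset.mul_sum] at this
    exact (mul_eq_zero.1 this).resolve_left hk
  have hdetD := det_ne_zero_of hs D v hv hvD
  have hmultv : mult (Set.range v) = D.det.natAbs := mult_of_basis hs hhsli hhssat D hdetD v hv hvD
  -- the determinant
  set w : Fin ℓ ⊕ Fin m → Fin M → ℝ := Sum.elim (fun (j : Fin ℓ) (i : Fin M) => (a j i : ℝ)) b
    with hw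
  rw [adet_eq w σ]
  set W : Matrix (Fin M) (Fin M) ℝ := Matrix.of fun i => w (σ.symm i) with hWdef
  set Er : Matrix (Fin M) (Fin M) ℝ := E.map (Int.cast : ℤ → ℝ) with hEr
  set Qr : Matrix (Fin M) (Fin M) ℝ := Q.map (Int.cast : ℤ → ℝ) with hQr
  have hQEr : Qr * Er = 1 := by
    have := congrArg (fun X : Matrix (Fin M) (Fin M) ℤ => X.map (Int.castRingHom ℝ)) hQE
    simp only [Matrix.map_mul, Matrix.map_one _ (map_zero _) (map_one _)] at this
    exact this
  have hWfac : W = (W * Qr) * Er := by rw [Matrix.mul_assoc, hQEr, Matrix.mul_one]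
  have hdetE : |Er.det| = 1 := by
    have h1 : IsUnit E.det := by
      have : Q.det * E.det = 1 := by rw [← Matrix.det_mul, hQE, Matrix.det_one]
      exact IsUnit.of_mul_eq_one Q.det (by rw [mul_comm]; exact this)
    have h2 : Er.det = ((E.det : ℤ) : ℝ) := (RingHom.map_det (Int.castRingHom ℝ) E).symm
    rw [h2]
    rcases Int.isUnit_iff.1 h1 with h | h <;> rw [h] <;> simp
  set β : Matrix (Fin m) (Fin ℓ) ℝ := Matrix.of fun k i => ∑ j, b k j * (Q j (σ (Sum.inl i)) : ℝ)
  set γ : Matrix (Fin m) (Fin m) ℝ := Matrix.of fun k k' => ∑ j, b k j * (Q j (σ (Sum.inr k')) : ℝ)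
    with hγ
  have hblocks : (W * Qr).submatrix σ σ =
      Matrix.fromBlocks (C.map (Int.cast : ℤ → ℝ)) 0 β γ := by
    ext x y
    rw [Matrix.submatrix_apply, Matrix.mul_apply]
    rcases x with j | k <;> rcases y with i | k'
    · simp only [hWdef, Matrix.of_apply, Equiv.symm_apply_apply, hw, Sum.elim_inl,
        Matrix.fromBlocks_apply₁₁, Matrix.map_apply, hC, hQr]
      push_cast
      rfl
    · simp only [hWdef, Matrix.of_apply, Equiv.symm_apply_apply, hw, Sum.elim_inl,
        Matrix.fromBlocks_apply₁₂, Matrix.map_apply, hQr, Matrix.zero_apply]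
      have := hacoord j k'
      exact_mod_cast this
    · simp only [hWdef, Matrix.of_apply, Equiv.symm_apply_apply, hw, Sum.elim_inr,
        Matrix.fromBlocks_apply₂₁, Matrix.map_apply, hQr]
      rfl
    · simp only [hWdef, Matrix.of_apply, Equiv.symm_apply_apply, hw, Sum.elim_inr,
        Matrix.fromBlocks_apply₂₂, Matrix.map_apply, hQr]
      rfl
  have hdetW : |W.det| = |(C.det : ℝ)| * |γ.det| := by
    rw [hWfac, Matrix.det_mul, abs_mul, hdetE, mul_one, ← Matrix.det_submatrix_equiv_self σ,
      hblocks, Matrix.det_fromBlocks_zero₁₂, abs_mul]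
    have h2 : (C.map (Int.cast : ℤ → ℝ)).det = ((C.det : ℤ) : ℝ) :=
      (RingHom.map_det (Int.castRingHom ℝ) C).symm
    rw [h2]
  have hγD : γ * (D.map (Int.cast : ℤ → ℝ)).transpose = 1 := by
    ext k k'
    rw [Matrix.mul_apply, Matrix.one_apply, ← hb k k']
    simp only [hγ, Matrix.of_apply, Matrix.transpose_apply, Matrix.map_apply, hD]
    push_cast
    -- sum over all `i`
    have hall : ∑ i, (∑ j, b k j * (Q j i : ℝ)) * (∑ l, (v k' l : ℝ) * (E i l : ℝ)) =
        ∑ i, b k i * (v k' i : ℝ) := by
      have hd : ∀ j l, ∑ i, (Q j i : ℝ) * (E i l : ℝ) = if j = l then 1 else 0 := by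
        intro j l
        have := hdot' j l
        have h2 : ((∑ i, Q j i * E i l : ℤ) : ℝ) = ((if j = l then 1 else 0 : ℤ) : ℝ) := by
          rw [this]
        push_cast at h2
        exact h2
      calc ∑ i, (∑ j, b k j * (Q j i : ℝ)) * (∑ l, (v k' l : ℝ) * (E i l : ℝ))
          = ∑ i, ∑ j, ∑ l, b k j * (v k' l : ℝ) * ((Q j i : ℝ) * (E i l : ℝ)) := by
            apply Finset.sum_congr rfl; intro i _
            rw [Finset.sum_mul_sum]
            apply Finset.sum_congr rfl; intro j _
            apply Finset.sum_congr rfl; intro l _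
            ring
        _ = ∑ j, ∑ l, ∑ i, b k j * (v k' l : ℝ) * ((Q j i : ℝ) * (E i l : ℝ)) := by
            rw [Finset.sum_comm]
            apply Finset.sum_congr rfl; intro j _
            rw [Finset.sum_comm]
        _ = ∑ j, ∑ l, b k j * (v k' l : ℝ) * (if j = l then 1 else 0) := by
            apply Finset.sum_congr rfl; intro j _
            apply Finset.sum_congr rfl; intro l _
            rw [← Finset.mul_sum, hd j l]
        _ = _ := by
            apply Finset.sum_congr rfl; intro j _
            simp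
    rw [← hall, ← Equiv.sum_comp σ, Fintype.sum_sum_type]
    have h0 : ∑ i, (∑ j, b k j * (Q j (σ (Sum.inl i)) : ℝ)) *
        (∑ l, (v k' l : ℝ) * (E (σ (Sum.inl i)) l : ℝ)) = 0 := by
      apply Finset.sum_eq_zero
      intro i _
      have := hvE k' i
      have h2 : (∑ l, (v k' l : ℝ) * (E (σ (Sum.inl i)) l : ℝ)) = 0 := by exact_mod_cast this
      rw [h2, mul_zero]
    rw [h0, zero_add]
  have hdetγ : |γ.det| * |(D.det : ℝ)| = 1 := by
    have := congrArg Matrix.det hγD
    rw [Matrix.det_mul, Matrix.det_transpose, Matrix.det_one] at this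
    have h2 : (D.map (Int.cast : ℤ → ℝ)).det = ((D.det : ℤ) : ℝ) :=
      (RingHom.map_det (Int.castRingHom ℝ) D).symm
    rw [h2] at this
    rw [← abs_mul, this, abs_one]
  rw [hmulta, hmultv, hdetW]
  have cC : ((C.det.natAbs : ℕ) : ℝ) = |(C.det : ℝ)| := by
    rw [Nat.cast_natAbs, Int.cast_abs]
  have cD : ((D.det.natAbs : ℕ) : ℝ) = |(D.det : ℝ)| := by
    rw [Nat.cast_natAbs, Int.cast_abs]
  rw [cC, cD]
  linear_combination (-|(C.det : ℝ)|) * hdetγ

end Pool.Agent.helper68.DL
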