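import Pool.Agent.helper61.DL.Defs

set_option autoImplicit false

/-! # MP_6163c8_ag, module L (second part): indices of integer lattices -/

namespace Pool.Agent.helper68.DL

open Finset Pool.Agent.helper61.DL

lemma mem_sat {m : ℕ} {S : Set (Fin m → ℤ)} {x : Fin m → ℤ} :
    x ∈ sat S ↔ ∃ k : ℤ, k ≠ 0 ∧ k • x ∈ AddSubgroup.closure S := Iff.rfl

lemma closure_le_sat {m : ℕ} (S : Set (Fin m → ℤ)) : AddSubgroup.closure S ≤ sat S := fun x hx =>
  mem_sat.2 ⟨1, one_ne_zero, by rwa [one_smul]⟩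

/-- the graph of a linear form -/
def graphHom {n : ℕ} (v : Fin n → ℤ) : (Fin n → ℤ) →+ (Fin (n + 1) → ℤ) where
  toFun a := (Fin.cons (∑ i, a i * v i) a : Fin (n + 1) → ℤ)
  map_zero' := by
    ext i
    refine Fin.cases ?_ (fun j => ?_) i <;> simp
  map_add' a b := by
    ext i
    refine Fin.cases ?_ (fun j => ?_) i
    · simp [add_mul, Finset.sum_add_distrib]
    · simp

theorem mult_cons {n : ℕ} (S : Set (Fin n → ℤ)) (v : Fin n → ℤ) :
    mult ((fun a => (Fin.cons (∑ i, a i * v i) a : Fin (n + 1) → ℤ)) '' S) = mult S := by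
  have hinj : Function.Injective (graphHom v) := by
    intro a b hab
    have := congrFun hab
    ext j
    have h := this j.succ
    simpa [graphHom] using h
  have h1 : AddSubgroup.closure ((fun a => (Fin.cons (∑ i, a i * v i) a : Fin (n + 1) → ℤ)) '' S)
      = AddSubgroup.map (graphHom v) (AddSubgroup.closure S) := by
    rw [AddMonoidHom.map_closure]; rfl
  have h2 : sat ((fun a => (Fin.cons (∑ i, a i * v i) a : Fin (n + 1) → ℤ)) '' S)
      = AddSubgroup.map (graphHom v) (sat S) := by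
    ext x
    rw [mem_sat, h1]
    constructor
    · rintro ⟨k, hk, hx⟩
      obtain ⟨y, hy, hyx⟩ := AddSubgroup.mem_map.1 hx
      have hy' : y = k • (fun j : Fin n => x j.succ) := by
        ext j
        have := congrFun hyx j.succ
        simpa [graphHom] using this
      refine AddSubgroup.mem_map.2 ⟨fun j => x j.succ, mem_sat.2 ⟨k, hk, by rw [← hy']; exact hy⟩, ?_⟩
      ext i
      refine Fin.cases ?_ (fun j => ?_) i
      · have := congrFun hyx 0
        have e : ∑ i, y i * v i = k * x 0 := by simpa [graphHom] using this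
        have e2 : k * ∑ i : Fin n, x i.succ * v i = k * x 0 := by
          rw [← e, hy', Finset.mul_sum]
          apply Finset.sum_congr rfl
          intro i _
          simp [mul_assoc]
        have := mul_left_cancel₀ hk e2
        simpa [graphHom] using this
      · simp [graphHom]
    · intro hx
      obtain ⟨y, hy, rfl⟩ := AddSubgroup.mem_map.1 hx
      obtain ⟨k, hk, hky⟩ := mem_sat.1 hy
      exact ⟨k, hk, AddSubgroup.mem_map.2 ⟨k • y, hky, map_zsmul _ _ _⟩⟩
  unfold mult
  rw [h1, h2, AddSubgroup.relIndex_map_map_of_injective _ _ hinj]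

/-- `mult` under a hom `ρ` for which both groups are preimages -/
lemma mult_of_comap {n m : ℕ} (ρ : (Fin m → ℤ) →+ (Fin n → ℤ)) (S' : Set (Fin m → ℤ))
    (S : Set (Fin n → ℤ))
    (h1 : ∀ x, x ∈ AddSubgroup.closure S' ↔ ρ x ∈ AddSubgroup.closure S)
    (h2 : ∀ y ∈ sat S, ∃ x, ρ x = y) : mult S' = mult S := by
  have e1 : AddSubgroup.closure S' = AddSubgroup.comap ρ (AddSubgroup.closure S) := by
    ext x; rw [AddSubgroup.mem_comap]; exact h1 x
  have e2 : sat S' = AddSubgroup.comap ρ (sat S) := by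
    ext x
    rw [AddSubgroup.mem_comap, mem_sat, mem_sat]
    constructor
    · rintro ⟨k, hk, hx⟩
      exact ⟨k, hk, by rw [← map_zsmul]; exact (h1 _).1 hx⟩
    · rintro ⟨k, hk, hx⟩
      exact ⟨k, hk, (h1 _).2 (by rw [map_zsmul]; exact hx)⟩
  have e3 : AddSubgroup.map ρ (AddSubgroup.comap ρ (sat S)) = sat S := by
    ext y
    rw [AddSubgroup.mem_map]
    constructor
    · rintro ⟨x, hx, rfl⟩
      exact hx
    · intro hy
      obtain ⟨x, rfl⟩ := h2 y hy
      exact ⟨x, hy, rfl⟩
  unfold mult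
  rw [e1, e2, AddSubgroup.relIndex_comap, e3]

/-- projection of the homogenised lattice along `(-1, v₀)` -/
def rho0 {n : ℕ} (v₀ : Fin n → ℤ) : (Fin (n + 1) → ℤ) →+ (Fin n → ℤ) where
  toFun x := fun j => x j.succ + x 0 * v₀ j
  map_zero' := by ext j; simp
  map_add' x y := by ext j; simp; ring

theorem nvol_eq {n : ℕ} (F : Finset (Fin n →₀ ℕ)) (hF : F.Nonempty) :
    nvol F = mult {x : Fin (n + 1) → ℤ | ∃ v ∈ F, x = Fin.cons (-1) (fun i => (v i : ℤ))} := by
  obtain ⟨v₀, hv₀⟩ := hF
  symm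
  refine mult_of_comap (rho0 (fun i => (v₀ i : ℤ))) _ _ ?_ ?_
  · intro x
    have hle : AddSubgroup.closure {x : Fin (n + 1) → ℤ | ∃ v ∈ F, x = Fin.cons (-1)
        (fun i => (v i : ℤ))} ≤ AddSubgroup.comap (rho0 (fun i => (v₀ i : ℤ)))
        (AddSubgroup.closure {d : Fin n → ℤ | ∃ u ∈ F, ∃ v ∈ F,
          d = fun i => (v i : ℤ) - (u i : ℤ)}) := by
      rw [AddSubgroup.closure_le]
      rintro x ⟨v, hv, rfl⟩
      apply AddSubgroup.subset_closure
      refine ⟨v₀, hv₀, v, hv, ?_⟩
      ext j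
      simp [rho0]
      ring
    constructor
    · intro hx
      exact hle hx
    · intro hx
      -- lift of the differences
      have hlift : ∀ y ∈ AddSubgroup.closure {d : Fin n → ℤ | ∃ u ∈ F, ∃ v ∈ F,
          d = fun i => (v i : ℤ) - (u i : ℤ)}, (Fin.cons 0 y : Fin (n + 1) → ℤ) ∈
          AddSubgroup.closure {x : Fin (n + 1) → ℤ | ∃ v ∈ F, x = Fin.cons (-1)
            (fun i => (v i : ℤ))} := by
        intro y hy
        induction hy using AddSubgroup.closure_induction with
        | mem y hy =>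
          obtain ⟨u, hu, v, hv, rfl⟩ := hy
          have : (Fin.cons 0 (fun i => (v i : ℤ) - (u i : ℤ)) : Fin (n + 1) → ℤ) =
              Fin.cons (-1) (fun i => (v i : ℤ)) - Fin.cons (-1) (fun i => (u i : ℤ)) := by
            ext i
            refine Fin.cases ?_ (fun j => ?_) i <;> simp
          rw [this]
          exact AddSubgroup.sub_mem _ (AddSubgroup.subset_closure ⟨v, hv, rfl⟩)
            (AddSubgroup.subset_closure ⟨u, hu, rfl⟩)
        | zero =>
          have : (Fin.cons 0 (0 : Fin n → ℤ) : Fin (n + 1) → ℤ) = 0 := by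
            ext i
            refine Fin.cases ?_ (fun j => ?_) i <;> simp
          rw [this]
          exact AddSubgroup.zero_mem _
        | add x y _ _ hx hy =>
          have : (Fin.cons 0 (x + y) : Fin (n + 1) → ℤ) = Fin.cons 0 x + Fin.cons 0 y := by
            ext i
            refine Fin.cases ?_ (fun j => ?_) i <;> simp
          rw [this]
          exact AddSubgroup.add_mem _ hx hy
        | neg x _ hx =>
          have : (Fin.cons 0 (-x) : Fin (n + 1) → ℤ) = - Fin.cons 0 x := by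
            ext i
            refine Fin.cases ?_ (fun j => ?_) i <;> simp
          rw [this]
          exact AddSubgroup.neg_mem _ hx
      have h1 := hlift _ hx
      have h2 : x = (Fin.cons 0 (rho0 (fun i => (v₀ i : ℤ)) x) : Fin (n + 1) → ℤ) +
          (-(x 0)) • (Fin.cons (-1) (fun i => (v₀ i : ℤ)) : Fin (n + 1) → ℤ) := by
        ext i
        refine Fin.cases ?_ (fun j => ?_) i
        · simp
        · simp [rho0]
      have h3 : (Fin.cons (-1) (fun i => (v₀ i : ℤ)) : Fin (n + 1) → ℤ) ∈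
          {x : Fin (n + 1) → ℤ | ∃ v ∈ F, x = Fin.cons (-1) (fun i => (v i : ℤ))} :=
        ⟨v₀, hv₀, rfl⟩
      rw [h2]
      exact AddSubgroup.add_mem _ h1 (AddSubgroup.zsmul_mem _
        (AddSubgroup.subset_closure h3) _)
  · intro y _
    refine ⟨(Fin.cons 0 y : Fin (n + 1) → ℤ), ?_⟩
    ext j
    simp [rho0]

theorem nvol_small {n : ℕ} (F : Finset (Fin n →₀ ℕ)) (hF : F.card ≤ 1) : nvol F = 1 := by
  have h1 : AddSubgroup.closure {d : Fin n → ℤ | ∃ u ∈ F, ∃ v ∈ F,
      d = fun i => (v i : ℤ) - (u i : ℤ)} = ⊥ := by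
    rw [AddSubgroup.closure_eq_bot_iff]
    rintro d ⟨u, hu, v, hv, rfl⟩
    have := Finset.card_le_one.1 hF u hu v hv
    subst this
    ext i
    simp
  have h2 : sat {d : Fin n → ℤ | ∃ u ∈ F, ∃ v ∈ F,
      d = fun i => (v i : ℤ) - (u i : ℤ)} = ⊥ := by
    rw [eq_bot_iff]
    intro x hx
    obtain ⟨k, hk, hx⟩ := mem_sat.1 hx
    rw [h1, AddSubgroup.mem_bot] at hx
    rw [AddSubgroup.mem_bot]
    exact (smul_eq_zero.1 hx).resolve_left hk
  unfold nvol mult
  rw [h1, h2]
  simp

/-- projection along `w` with `w i = 1` -/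
def rhoi {n : ℕ} (i : Fin n) (w : Fin n → ℤ) : (Fin n → ℤ) →+ (Fin n → ℤ) where
  toFun x := fun j => x j - x i * w j
  map_zero' := by ext j; simp
  map_add' x y := by ext j; simp; ring

theorem nvol_apex {n : ℕ} (F : Finset (Fin n →₀ ℕ)) (v : Fin n →₀ ℕ) (i : Fin n) (hv : v i = 1)
    (hF : ∀ u ∈ F, u i = 0) [DecidableEq (Fin n →₀ ℕ)] : nvol (insert v F) = nvol F := by
  rcases F.eq_empty_or_nonempty with rfl | ⟨u₀, hu₀⟩
  · rw [nvol_small ∅ (by simp), nvol_small _ (by simp)]
  refine mult_of_comap (rhoi i (fun j => (v j : ℤ) - (u₀ j : ℤ))) _ _ ?_ ?_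
  · intro x
    have hle : AddSubgroup.closure {d : Fin n → ℤ | ∃ u ∈ insert v F, ∃ w ∈ insert v F,
        d = fun i => (w i : ℤ) - (u i : ℤ)} ≤ AddSubgroup.comap
        (rhoi i (fun j => (v j : ℤ) - (u₀ j : ℤ)))
        (AddSubgroup.closure {d : Fin n → ℤ | ∃ u ∈ F, ∃ w ∈ F,
          d = fun i => (w i : ℤ) - (u i : ℤ)}) := by
      rw [AddSubgroup.closure_le]
      rintro x ⟨u, hu, w, hw, rfl⟩
      rw [SetLike.mem_coe, AddSubgroup.mem_comap]
      rw [Finset.mem_insert] at hu hw
      rcases hu with rfl | hu <;> rcases hw with rfl | hw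
      · have : (rhoi i (fun j => (w j : ℤ) - (u₀ j : ℤ))) (fun i => (w i : ℤ) - (w i : ℤ)) = 0 := by
          ext j; simp [rhoi]
        rw [this]
        exact AddSubgroup.zero_mem _
      · apply AddSubgroup.subset_closure
        refine ⟨u₀, hu₀, w, hw, ?_⟩
        ext j
        simp [rhoi, hF w hw, hv]
      · apply AddSubgroup.subset_closure
        refine ⟨u, hu, u₀, hu₀, ?_⟩
        ext j
        simp [rhoi, hF u hu, hv]
      · apply AddSubgroup.subset_closure
        refine ⟨u, hu, w, hw, ?_⟩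
        ext j
        simp [rhoi, hF u hu, hF w hw]
    constructor
    · intro hx
      exact hle hx
    · intro hx
      have hmono : AddSubgroup.closure {d : Fin n → ℤ | ∃ u ∈ F, ∃ w ∈ F,
          d = fun i => (w i : ℤ) - (u i : ℤ)} ≤ AddSubgroup.closure {d : Fin n → ℤ |
          ∃ u ∈ insert v F, ∃ w ∈ insert v F, d = fun i => (w i : ℤ) - (u i : ℤ)} := by
        apply AddSubgroup.closure_mono
        rintro d ⟨u, hu, w, hw, rfl⟩
        exact ⟨u, Finset.mem_insert_of_mem hu, w, Finset.mem_insert_of_mem hw, rfl⟩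
      have h1 := hmono hx
      have h2 : x = (rhoi i (fun j => (v j : ℤ) - (u₀ j : ℤ))) x +
          (x i) • (fun j => (v j : ℤ) - (u₀ j : ℤ)) := by
        ext j
        simp [rhoi]
      have h3 : (fun j => (v j : ℤ) - (u₀ j : ℤ)) ∈ {d : Fin n → ℤ |
          ∃ u ∈ insert v F, ∃ w ∈ insert v F, d = fun i => (w i : ℤ) - (u i : ℤ)} :=
        ⟨u₀, Finset.mem_insert_of_mem hu₀, v, Finset.mem_insert_self _ _, rfl⟩
      rw [h2]
      exact AddSubgroup.add_mem _ h1 (AddSubgroup.zsmul_mem _ (AddSubgroup.subset_closure h3) _)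
  · intro y hy
    refine ⟨y, ?_⟩
    -- the coordinate `i` of `y` is zero
    have hz : ∀ z ∈ AddSubgroup.closure {d : Fin n → ℤ | ∃ u ∈ F, ∃ w ∈ F,
        d = fun i => (w i : ℤ) - (u i : ℤ)}, z i = 0 := by
      intro z hz
      induction hz using AddSubgroup.closure_induction with
      | mem z hz =>
        obtain ⟨u, hu, w, hw, rfl⟩ := hz
        simp [hF u hu, hF w hw]
      | zero => rfl
      | add x y _ _ hx hy => simp [hx, hy]
      | neg x _ hx => simp [hx]
    obtain ⟨k, hk, hky⟩ := mem_sat.1 hy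
    have := hz _ hky
    have hyi : y i = 0 := by
      have h' : k * y i = 0 := by simpa using this
      exact (mul_eq_zero.1 h').resolve_left hk
    ext j
    simp [rhoi, hyi]

end Pool.Agent.helper68.DL
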